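import Pool.Agent.H48.AsB

set_option autoImplicit false

namespace Pool.Agent.Results.MP_c78a2a_an.No

open Pool.Agent.H48.AsDefs

theorem result : ∃ (f : ℂ ≃ₜ ℂ) (E : Set ℂ), QC f ∧ (∃ L, LipschitzWith L f) ∧
    dimA E < dimA (f '' E) :=
  Pool.Agent.H48.AsB.main

end Pool.Agent.Results.MP_c78a2a_an.No
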